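import Pool.Agent.H466.HP.Stm
import Pool.Graph.R_seed8.TH850.UV.DPM
import Pool.Graph.R_seed8.TH850.UR.Ari
import Pool.Graph.R_seed8.H370R2.PC3

/-!
# HP-DM (helper870 for helper466): mean square of the prime side at distance `x` from the line
-/

set_option autoImplicit false

namespace Pool.Agent.H870.HP

open Complex MeasureTheory Set Filter Topology
open Pool.Agent.H466.HP (wt Dp S_DM)
open H370 (PP pterm)
open H370.A2 (lamC lamC_norm)
open ArithmeticFunction (vonMangoldt)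
open Pool.Agent.TH850.UR (WW WW_bound gauss_integrable gauss_total)

/-! ### the cut-off -/

theorem wt_cont (U : ℝ) : Continuous (wt U) := by
  unfold wt
  exact continuous_const.min (by fun_prop)

theorem wt_nonneg {U u : ℝ} (hU : 0 < U) (hu : u ≤ U) : 0 ≤ wt U u := by
  unfold wt
  have : u / U ≤ 1 := (div_le_one hU).2 hu
  exact le_min zero_le_one (by linarith)

theorem wt_le (U u : ℝ) : wt U u ≤ 1 := min_le_left _ _

theorem wt_norm {U u : ℝ} (hU : 0 < U) (hu : u ≤ U) : ‖(wt U u : ℂ)‖ ≤ 1 := by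
  rw [Complex.norm_real, Real.norm_of_nonneg (wt_nonneg hU hu)]
  exact wt_le U u

theorem exp_norm (u x y : ℝ) : ‖cexp (-((u : ℂ) * (x + I * y)))‖ = Real.exp (-(u * x)) := by
  rw [Complex.norm_exp]
  congr 1
  simp

/-! ### the mean value theorem -/

theorem mv (X : ℕ) (κ : ℕ → ℂ) (T1 T2 : ℝ) (hT : T1 ≤ T2) :
    ∫ t in T1..T2, ‖∑ n ∈ Finset.Icc 2 X, κ n * (n : ℂ) ^ (-(t : ℂ) * I)‖ ^ 2 ≤
      ((T2 - T1) + 8 * (X : ℝ) ^ 2) * ∑ n ∈ Finset.Icc 2 X, ‖κ n‖ ^ 2 := by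
  have hcont : Continuous fun t : ℝ => ∑ n ∈ Finset.Icc 2 X, κ n * (n : ℂ) ^ (-(t : ℂ) * I) := by
    refine continuous_finsetSum _ fun n hn => ?_
    have hn2 : 2 ≤ n := (Finset.mem_Icc.mp hn).1
    have : (fun t : ℝ => κ n * (n : ℂ) ^ (-(t : ℂ) * I)) =
        fun t : ℝ => κ n * cexp (-((Real.log n : ℂ) * I) * (t : ℂ)) := by
      funext t
      rw [Pool.Agent.TH850.UV.DPM952.cpow_eq n hn2]
    rw [this]
    fun_prop
  have h1 := (abs_le.1 (Pool.Agent.TH850.UV.dpm X κ T1 T2 hT)).2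
  have h2 := (abs_le.1 (Pool.Agent.TH850.UV.dpm X (fun n => -I * κ n) T1 T2 hT)).2
  have e1 : ∀ t : ℝ, (∑ n ∈ Finset.Icc 2 X, -I * κ n * (n : ℂ) ^ (-(t : ℂ) * I)).re =
      (∑ n ∈ Finset.Icc 2 X, κ n * (n : ℂ) ^ (-(t : ℂ) * I)).im := by
    intro t
    have h3 : ∑ n ∈ Finset.Icc 2 X, -I * κ n * (n : ℂ) ^ (-(t : ℂ) * I) =
        -I * ∑ n ∈ Finset.Icc 2 X, κ n * (n : ℂ) ^ (-(t : ℂ) * I) := by
      rw [Finset.mul_sum]
      exact Finset.sum_congr rfl fun n _ => by ring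
    rw [h3]
    simp
  have e2 : ∀ n, ‖-I * κ n‖ = ‖κ n‖ := by
    intro n
    rw [norm_mul, norm_neg, Complex.norm_I, one_mul]
  simp only [e1, e2] at h2
  have e3 : ∫ t in T1..T2, ‖∑ n ∈ Finset.Icc 2 X, κ n * (n : ℂ) ^ (-(t : ℂ) * I)‖ ^ 2 =
      (∫ t in T1..T2, ((∑ n ∈ Finset.Icc 2 X, κ n * (n : ℂ) ^ (-(t : ℂ) * I)).re) ^ 2) +
      ∫ t in T1..T2, ((∑ n ∈ Finset.Icc 2 X, κ n * (n : ℂ) ^ (-(t : ℂ) * I)).im) ^ 2 := by
    rw [← intervalIntegral.integral_add]
    · refine intervalIntegral.integral_congr fun t _ => ?_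
      rw [Complex.sq_norm, Complex.normSq_apply]
      ring
    · exact ((Complex.continuous_re.comp hcont).pow 2).intervalIntegrable _ _
    · exact ((Complex.continuous_im.comp hcont).pow 2).intervalIntegrable _ _
  have h3 : (∑ n ∈ Finset.Icc 2 X, ‖κ n‖) ^ 2 ≤ X * ∑ n ∈ Finset.Icc 2 X, ‖κ n‖ ^ 2 := by
    refine (sq_sum_le_card_mul_sum_sq (s := Finset.Icc 2 X) (f := fun n => ‖κ n‖)).trans ?_
    apply mul_le_mul_of_nonneg_right _ (Finset.sum_nonneg fun n _ => sq_nonneg _)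
    rw [Nat.card_Icc]
    have : X + 1 - 2 ≤ X := by omega
    exact_mod_cast this
  have h4 : 4 * (X : ℝ) * (∑ n ∈ Finset.Icc 2 X, ‖κ n‖) ^ 2 ≤
      4 * (X : ℝ) * (X * ∑ n ∈ Finset.Icc 2 X, ‖κ n‖ ^ 2) :=
    mul_le_mul_of_nonneg_left h3 (by positivity)
  rw [e3]
  nlinarith

/-! ### the coefficients -/

/-- the integral over `u` -/
noncomputable def dd (U x v : ℝ) (n : ℕ) : ℂ :=
  ∫ u in (0 : ℝ)..U, (wt U u : ℂ) * cexp (-(u * (x + I * v))) *
    Real.exp (-(u - Real.log n) ^ 2 / 2)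

/-- the coefficient -/
noncomputable def kap (U x v : ℝ) (n : ℕ) : ℂ := lamC n * (Real.sqrt n : ℂ)⁻¹ * dd U x v n

/-- weighted Cauchy-Schwarz -/
theorem cs_weight {U : ℝ} (hU : 0 < U) (f w : ℝ → ℝ) (hf : Continuous f) (hw : Continuous w)
    (hw0 : ∀ x, 0 < w x) : (∫ α in (0 : ℝ)..U, f α * w α) ^ 2 ≤
      (∫ α in (0 : ℝ)..U, w α) * ∫ α in (0 : ℝ)..U, f α ^ 2 * w α := by
  obtain ⟨A, hA⟩ : ∃ A, A = ∫ α in (0 : ℝ)..U, w α := ⟨_, rfl⟩
  obtain ⟨B, hB⟩ : ∃ B, B = ∫ α in (0 : ℝ)..U, f α * w α := ⟨_, rfl⟩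
  have hA0 : 0 < A := by
    rw [hA]
    exact intervalIntegral.intervalIntegral_pos_of_pos (hw.intervalIntegrable _ _)
      (fun x => hw0 x) hU
  have h1 : 0 ≤ ∫ α in (0 : ℝ)..U, w α * (f α - B / A) ^ 2 :=
    intervalIntegral.integral_nonneg hU.le fun x _ =>
      mul_nonneg (hw0 x).le (sq_nonneg _)
  have h2 : ∫ α in (0 : ℝ)..U, w α * (f α - B / A) ^ 2 =
      (∫ α in (0 : ℝ)..U, f α ^ 2 * w α) - 2 * (B / A) * B + (B / A) ^ 2 * A := by
    have e : ∀ α, w α * (f α - B / A) ^ 2 =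
        f α ^ 2 * w α - 2 * (B / A) * (f α * w α) + (B / A) ^ 2 * w α := fun α => by ring
    simp_rw [e]
    rw [intervalIntegral.integral_add (Continuous.intervalIntegrable (by fun_prop) _ _)
      (Continuous.intervalIntegrable (by fun_prop) _ _),
      intervalIntegral.integral_sub (Continuous.intervalIntegrable (by fun_prop) _ _)
      (Continuous.intervalIntegrable (by fun_prop) _ _),
      intervalIntegral.integral_const_mul, intervalIntegral.integral_const_mul, ← hA, ← hB]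
  rw [h2] at h1
  have h3 : 2 * (B / A) * B - (B / A) ^ 2 * A = B ^ 2 / A := by
    field_simp
    ring
  have h4 : B ^ 2 / A ≤ ∫ α in (0 : ℝ)..U, f α ^ 2 * w α := by linarith
  rw [div_le_iff₀ hA0] at h4
  rw [← hA, ← hB]
  linarith

theorem gauss_le {U : ℝ} (hU : 0 < U) (c : ℝ) :
    ∫ u in (0 : ℝ)..U, Real.exp (-(u - c) ^ 2 / 2) ≤ Real.sqrt (2 * Real.pi) := by
  have h1 : Integrable fun u : ℝ => Real.exp (-(u - c) ^ 2 / 2) :=
    gauss_integrable.comp_sub_right c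
  rw [intervalIntegral.integral_of_le hU.le]
  refine (setIntegral_le_integral h1 (Eventually.of_forall fun x => (Real.exp_pos _).le)).trans ?_
  have h2 := integral_sub_right_eq_self (μ := (volume : Measure ℝ))
    (fun u : ℝ => Real.exp (-u ^ 2 / 2)) c
  rw [h2, gauss_total]

theorem dd_sq {U x v : ℝ} (hU : 0 < U) (n : ℕ) : ‖dd U x v n‖ ^ 2 ≤
    Real.sqrt (2 * Real.pi) *
      ∫ u in (0 : ℝ)..U, Real.exp (-(u * x)) ^ 2 * Real.exp (-(u - Real.log n) ^ 2 / 2) := by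
  have h1 : ‖dd U x v n‖ ≤
      ∫ u in (0 : ℝ)..U, Real.exp (-(u * x)) * Real.exp (-(u - Real.log n) ^ 2 / 2) := by
    unfold dd
    refine (intervalIntegral.norm_integral_le_integral_norm hU.le).trans ?_
    have hwc := wt_cont U
    refine intervalIntegral.integral_mono_on hU.le
      (Continuous.intervalIntegrable (by fun_prop) _ _)
      (Continuous.intervalIntegrable (by fun_prop) _ _) fun u hu => ?_
    rw [norm_mul, norm_mul, exp_norm, Complex.norm_real (Real.exp _),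
      Real.norm_of_nonneg (Real.exp_pos _).le]
    have h2 := wt_norm hU hu.2
    have h3 : 0 ≤ Real.exp (-(u * x)) * Real.exp (-(u - Real.log n) ^ 2 / 2) := by positivity
    calc ‖(wt U u : ℂ)‖ * Real.exp (-(u * x)) * Real.exp (-(u - Real.log n) ^ 2 / 2) =
        ‖(wt U u : ℂ)‖ * (Real.exp (-(u * x)) * Real.exp (-(u - Real.log n) ^ 2 / 2)) := by ring
      _ ≤ 1 * (Real.exp (-(u * x)) * Real.exp (-(u - Real.log n) ^ 2 / 2)) :=
          mul_le_mul_of_nonneg_right h2 h3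
      _ = _ := one_mul _
  have h2 := cs_weight hU (fun u => Real.exp (-(u * x)))
    (fun u => Real.exp (-(u - Real.log n) ^ 2 / 2)) (by fun_prop) (by fun_prop)
    (fun u => Real.exp_pos _)
  have h3 : 0 ≤ ∫ u in (0 : ℝ)..U, Real.exp (-(u * x)) ^ 2 *
      Real.exp (-(u - Real.log n) ^ 2 / 2) :=
    intervalIntegral.integral_nonneg hU.le fun u _ => by positivity
  calc ‖dd U x v n‖ ^ 2 ≤ (∫ u in (0 : ℝ)..U, Real.exp (-(u * x)) *
        Real.exp (-(u - Real.log n) ^ 2 / 2)) ^ 2 := by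
        exact pow_le_pow_left₀ (norm_nonneg _) h1 2
    _ ≤ _ := h2
    _ ≤ _ := mul_le_mul_of_nonneg_right (gauss_le hU _) h3

theorem int_exp {U x : ℝ} (hU : 0 < U) (hx : 0 < x) :
    ∫ u in (0 : ℝ)..U, Real.exp (-(u * x)) ^ 2 * (1 + u) ≤ 1 / (2 * x) + 1 / (4 * x ^ 2) := by
  have hd : ∀ u : ℝ, HasDerivAt (fun u : ℝ => -(Real.exp (-(2 * x * u)) *
      ((1 + u) / (2 * x) + 1 / (4 * x ^ 2)))) (Real.exp (-(u * x)) ^ 2 * (1 + u)) u := by
    intro u
    have h1 : HasDerivAt (fun u : ℝ => -(2 * x * u)) (-(2 * x)) u :=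
      HasDerivAt.congr_deriv ((hasDerivAt_id u).const_mul (2 * x)).neg (by rw [mul_one])
    have h2 := h1.exp
    have h3 : HasDerivAt (fun u : ℝ => (1 + u) / (2 * x) + 1 / (4 * x ^ 2)) (1 / (2 * x)) u :=
      (((hasDerivAt_id u).const_add 1).div_const (2 * x)).add_const _
    refine (h2.mul h3).neg.congr_deriv ?_
    have h4 : Real.exp (-(u * x)) ^ 2 = Real.exp (-(2 * x * u)) := by
      rw [← Real.exp_nat_mul]
      congr 1
      push_cast
      ring
    rw [h4]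
    field_simp
    ring
  have h := intervalIntegral.integral_eq_sub_of_hasDerivAt (a := 0) (b := U)
    (fun u _ => hd u) (Continuous.intervalIntegrable (by fun_prop) _ _)
  rw [h]
  simp only [mul_zero, neg_zero, Real.exp_zero, one_mul, add_zero]
  have h5 : 0 ≤ Real.exp (-(2 * x * U)) * ((1 + U) / (2 * x) + 1 / (4 * x ^ 2)) := by positivity
  linarith

/-- the sum of the squares of the coefficients -/
theorem kap_sum : ∃ C : ℝ, 0 < C ∧ ∀ (X : ℕ) (U x v : ℝ), 0 < U → 0 < x → x ≤ 3 →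
    ∑ n ∈ Finset.Icc 2 X, ‖kap U x v n‖ ^ 2 ≤ C / x ^ 2 := by
  obtain ⟨C, hC, hW⟩ := WW_bound
  refine ⟨Real.sqrt (2 * Real.pi) * (2 * C), by positivity, fun X U x v hU hx hx3 => ?_⟩
  have h1 : ∀ n ∈ Finset.Icc 1 X, ‖kap U x v n‖ ^ 2 ≤ Real.sqrt (2 * Real.pi) *
      ∫ u in (0 : ℝ)..U, Real.exp (-(u * x)) ^ 2 *
        (vonMangoldt n ^ 2 / n * Real.exp (-(u - Real.log n) ^ 2 / 2)) := by
    intro n hn
    have hn1 : 1 ≤ n := (Finset.mem_Icc.1 hn).1
    have hn0 : (0 : ℝ) < n := by exact_mod_cast hn1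
    have e1 : ‖kap U x v n‖ ^ 2 = vonMangoldt n ^ 2 / n * ‖dd U x v n‖ ^ 2 := by
      unfold kap
      rw [norm_mul, norm_mul, lamC_norm, norm_inv, Complex.norm_real,
        Real.norm_of_nonneg (Real.sqrt_nonneg _), mul_pow, mul_pow, inv_pow, Real.sq_sqrt hn0.le]
      ring
    have e2 : ∫ u in (0 : ℝ)..U, Real.exp (-(u * x)) ^ 2 *
        (vonMangoldt n ^ 2 / n * Real.exp (-(u - Real.log n) ^ 2 / 2)) =
        vonMangoldt n ^ 2 / n * ∫ u in (0 : ℝ)..U, Real.exp (-(u * x)) ^ 2 *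
          Real.exp (-(u - Real.log n) ^ 2 / 2) := by
      rw [← intervalIntegral.integral_const_mul]
      refine intervalIntegral.integral_congr fun u _ => ?_
      ring
    rw [e1, e2]
    calc vonMangoldt n ^ 2 / n * ‖dd U x v n‖ ^ 2 ≤ vonMangoldt n ^ 2 / n *
        (Real.sqrt (2 * Real.pi) * ∫ u in (0 : ℝ)..U, Real.exp (-(u * x)) ^ 2 *
          Real.exp (-(u - Real.log n) ^ 2 / 2)) :=
          mul_le_mul_of_nonneg_left (dd_sq hU n) (by positivity)
      _ = _ := by ring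
  calc ∑ n ∈ Finset.Icc 2 X, ‖kap U x v n‖ ^ 2 ≤ ∑ n ∈ Finset.Icc 1 X, ‖kap U x v n‖ ^ 2 :=
        Finset.sum_le_sum_of_subset_of_nonneg (Finset.Icc_subset_Icc_left (by norm_num))
          fun n _ _ => sq_nonneg _
    _ ≤ ∑ n ∈ Finset.Icc 1 X, Real.sqrt (2 * Real.pi) *
      ∫ u in (0 : ℝ)..U, Real.exp (-(u * x)) ^ 2 *
        (vonMangoldt n ^ 2 / n * Real.exp (-(u - Real.log n) ^ 2 / 2)) := Finset.sum_le_sum h1
    _ = Real.sqrt (2 * Real.pi) * ∫ u in (0 : ℝ)..U, Real.exp (-(u * x)) ^ 2 * WW X u := by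
        rw [← Finset.mul_sum, ← intervalIntegral.integral_finsetSum fun n _ =>
          Continuous.intervalIntegrable (by fun_prop) _ _]
        congr 1
        refine intervalIntegral.integral_congr fun u _ => ?_
        rw [← Finset.mul_sum]
        rfl
    _ ≤ Real.sqrt (2 * Real.pi) *
        ∫ u in (0 : ℝ)..U, C * (Real.exp (-(u * x)) ^ 2 * (1 + u)) := by
        apply mul_le_mul_of_nonneg_left _ (Real.sqrt_nonneg _)
        have hWc : Continuous (WW X) := by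
          unfold WW
          fun_prop
        refine intervalIntegral.integral_mono_on hU.le
          (Continuous.intervalIntegrable (by fun_prop) _ _)
          (Continuous.intervalIntegrable (by fun_prop) _ _) fun u hu => ?_
        have h2 := hW X u hu.1
        calc Real.exp (-(u * x)) ^ 2 * WW X u ≤ Real.exp (-(u * x)) ^ 2 * (C * (1 + u)) :=
              mul_le_mul_of_nonneg_left h2 (sq_nonneg _)
          _ = _ := by ring
    _ ≤ Real.sqrt (2 * Real.pi) * (C * (1 / (2 * x) + 1 / (4 * x ^ 2))) := by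
        rw [intervalIntegral.integral_const_mul]
        apply mul_le_mul_of_nonneg_left _ (Real.sqrt_nonneg _)
        exact mul_le_mul_of_nonneg_left (int_exp hU hx) hC.le
    _ ≤ Real.sqrt (2 * Real.pi) * (C * (2 / x ^ 2)) := by
        apply mul_le_mul_of_nonneg_left _ (Real.sqrt_nonneg _)
        apply mul_le_mul_of_nonneg_left _ hC.le
        rw [← sub_nonneg]
        have e : 2 / x ^ 2 - (1 / (2 * x) + 1 / (4 * x ^ 2)) = (7 - 2 * x) / (4 * x ^ 2) := by
          field_simp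
          ring
        rw [e]
        have : 0 ≤ 7 - 2 * x := by linarith
        positivity
    _ = _ := by ring

/-! ### the truncated prime side -/

theorem DX_eq (U x v t : ℝ) (X : ℕ) :
    ∫ u in (0 : ℝ)..U, (wt U u : ℂ) * cexp (-(u * (x + I * (t + v)))) *
      ∑ n ∈ Finset.Icc 1 X, pterm lamC u t n =
    ∑ n ∈ Finset.Icc 2 X, kap U x v n * (n : ℂ) ^ (-(t : ℂ) * I) := by
  have hwc := wt_cont U
  have e1 : ∀ u : ℝ, (wt U u : ℂ) * cexp (-(u * (x + I * (t + v)))) *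
      ∑ n ∈ Finset.Icc 1 X, pterm lamC u t n = ∑ n ∈ Finset.Icc 2 X,
        (lamC n * (Real.sqrt n : ℂ)⁻¹ * (n : ℂ) ^ (-(t : ℂ) * I)) *
          ((wt U u : ℂ) * cexp (-(u * (x + I * v))) * Real.exp (-(u - Real.log n) ^ 2 / 2)) := by
    intro u
    have h1 : ∑ n ∈ Finset.Icc 1 X, pterm lamC u t n = ∑ n ∈ Finset.Icc 2 X, pterm lamC u t n := by
      symm
      refine Finset.sum_subset (Finset.Icc_subset_Icc_left (by norm_num)) fun n hn hn' => ?_
      have hn1 : n = 1 := by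
        rw [Finset.mem_Icc] at hn hn'
        omega
      subst hn1
      unfold pterm lamC
      simp
    rw [h1, Finset.mul_sum]
    refine Finset.sum_congr rfl fun n hn => ?_
    have hn2 : 2 ≤ n := (Finset.mem_Icc.mp hn).1
    rw [Pool.Agent.TH850.UV.DPM952.cpow_eq n hn2]
    unfold pterm
    have h2 : cexp (-(u * (x + I * (t + v)))) * cexp (I * t * (u - Real.log n)) =
        cexp (-((Real.log n : ℂ) * I) * (t : ℂ)) * cexp (-(u * (x + I * v))) := by
      rw [← Complex.exp_add, ← Complex.exp_add]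
      congr 1
      ring
    linear_combination ((wt U u : ℂ) * lamC n * (Real.sqrt n : ℂ)⁻¹ *
      Real.exp (-(u - Real.log n) ^ 2 / 2)) * h2
  simp_rw [e1]
  rw [intervalIntegral.integral_finsetSum fun n _ =>
    Continuous.intervalIntegrable (by fun_prop) _ _]
  refine Finset.sum_congr rfl fun n _ => ?_
  rw [intervalIntegral.integral_const_mul]
  unfold kap dd
  ring

theorem PP_contOn (U t : ℝ) : ContinuousOn (fun u : ℝ => PP lamC u t) (Icc 0 U) := by
  have ha : ∀ n, ‖lamC n‖ ≤ vonMangoldt n := fun n => (lamC_norm n).le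
  have e : (fun u : ℝ => PP lamC u t) = fun u => ∑' n, pterm lamC u t n := rfl
  rw [e]
  refine continuousOn_tsum (u := fun n : ℕ => 2 * Real.exp (2 + 2 * U) * (1 / (n : ℝ) ^ 2))
    (fun n => ?_) (H370.sum_inv_sq.mul_left _) fun n u hu => ?_
  · unfold pterm
    fun_prop
  · rw [H370.norm_pterm]
    refine (H370.pt_le ha u n).trans ?_
    have h1 : Real.exp (2 + 2 * u) ≤ Real.exp (2 + 2 * U) :=
      Real.exp_le_exp.2 (by linarith [hu.2])
    gcongr

/-- the truncation error -/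
theorem trunc {U x v t D : ℝ} {X : ℕ} (hU : 0 < U) (hx : 0 < x) (hD : 0 ≤ D)
    (hX : U + D ≤ Real.log (X + 1)) :
    ‖Dp U (x + I * (t + v)) t - ∑ n ∈ Finset.Icc 2 X, kap U x v n * (n : ℂ) ^ (-(t : ℂ) * I)‖ ≤
      2 * (∑' n : ℕ, 1 / (n : ℝ) ^ 2) * (Real.exp (4 + 2 * U) * Real.exp (-D ^ 2 / 4)) * U := by
  have ha : ∀ n, ‖lamC n‖ ≤ vonMangoldt n := fun n => (lamC_norm n).le
  have hwc := wt_cont U
  have hζ0 : 0 ≤ ∑' n : ℕ, 1 / (n : ℝ) ^ 2 := tsum_nonneg fun n => by positivity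
  rw [← DX_eq]
  unfold Dp
  rw [← intervalIntegral.integral_sub]
  · have h1 := intervalIntegral.norm_integral_le_of_norm_le_const (a := 0) (b := U)
      (f := fun u : ℝ => (wt U u : ℂ) * cexp (-(u * (x + I * (t + v)))) * PP lamC u t -
        (wt U u : ℂ) * cexp (-(u * (x + I * (t + v)))) * ∑ n ∈ Finset.Icc 1 X, pterm lamC u t n)
      (C := 2 * (∑' n : ℕ, 1 / (n : ℝ) ^ 2) * (Real.exp (4 + 2 * U) * Real.exp (-D ^ 2 / 4))) ?_
    · rwa [sub_zero, abs_of_pos hU] at h1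
    · intro u hu
      rw [uIoc_of_le hU.le] at hu
      rw [← mul_sub, norm_mul, norm_mul]
      have h2 := H370.PP_trunc ha u t D X hD (by linarith [hu.2])
      have h3 := wt_norm hU hu.2
      have h4 : ‖cexp (-((u : ℂ) * (x + I * (t + v))))‖ ≤ 1 := by
        have h5 := exp_norm u x (t + v)
        push_cast at h5
        rw [h5, Real.exp_le_one_iff]
        nlinarith [hu.1, mul_pos hu.1 hx]
      have h6 : Real.exp (4 + 2 * u) ≤ Real.exp (4 + 2 * U) :=
        Real.exp_le_exp.2 (by linarith [hu.2])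
      calc ‖(wt U u : ℂ)‖ * ‖cexp (-((u : ℂ) * (x + I * (t + v))))‖ *
          ‖PP lamC u t - ∑ n ∈ Finset.Icc 1 X, pterm lamC u t n‖ ≤ 1 * 1 *
          (2 * (∑' n : ℕ, 1 / (n : ℝ) ^ 2) * (Real.exp (4 + 2 * u) * Real.exp (-D ^ 2 / 4))) := by
            apply mul_le_mul _ h2 (norm_nonneg _) (by norm_num)
            exact mul_le_mul h3 h4 (norm_nonneg _) zero_le_one
        _ ≤ _ := by
            rw [one_mul, one_mul]
            gcongr
  · apply ContinuousOn.intervalIntegrable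
    rw [uIcc_of_le hU.le]
    refine ContinuousOn.mul (Continuous.continuousOn (by fun_prop)) (PP_contOn U t)
  · apply Continuous.intervalIntegrable
    unfold pterm
    fun_prop

theorem dm : S_DM := by
  obtain ⟨C, hC, hK⟩ := kap_sum
  obtain ⟨ζ2, hζ2⟩ : ∃ ζ2 : ℝ, ζ2 = ∑' n : ℕ, 1 / (n : ℝ) ^ 2 := ⟨_, rfl⟩
  have hζ0 : 0 ≤ ζ2 := by
    rw [hζ2]
    exact tsum_nonneg fun n => by positivity
  -- the truncation error is small
  have hE : Tendsto (fun L : ℝ => 2 * ζ2 * (Real.exp (4 + 2 * (L / 16)) *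
      Real.exp (-(L / 16) ^ 2 / 4)) * (L / 16)) atTop (𝓝 0) := by
    have h1 : Tendsto (fun L : ℝ => 4 + 2 * L + -(L / 16) ^ 2 / 4) atTop atBot := by
      have h2 : Tendsto (fun L : ℝ => L * (L / 1024 - 2)) atTop atTop := by
        apply Tendsto.atTop_mul_atTop₀ tendsto_id
        exact tendsto_atTop_add_const_right _ _ (tendsto_id.atTop_div_const (by norm_num))
      have h3 := (tendsto_neg_atTop_atBot.comp h2)
      have h4 := tendsto_atBot_add_const_left _ 4 h3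
      refine h4.congr fun L => ?_
      simp only [Function.comp_apply]
      ring
    have h2 := (Real.tendsto_exp_atBot.comp h1).const_mul (2 * ζ2)
    rw [mul_zero] at h2
    refine squeeze_zero' (g := fun L => 2 * ζ2 * (Real.exp ∘ fun L : ℝ =>
      4 + 2 * L + -(L / 16) ^ 2 / 4) L) ?_ ?_ h2
    · filter_upwards [eventually_ge_atTop 0] with L hL
      positivity
    · filter_upwards [eventually_ge_atTop 0] with L hL
      have h3 : L / 16 ≤ Real.exp L := by linarith [Real.add_one_le_exp L]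
      simp only [Function.comp_apply]
      rw [← Real.exp_add]
      calc 2 * ζ2 * Real.exp (4 + 2 * (L / 16) + -(L / 16) ^ 2 / 4) * (L / 16) ≤
          2 * ζ2 * Real.exp (4 + 2 * (L / 16) + -(L / 16) ^ 2 / 4) * Real.exp L := by gcongr
        _ = 2 * ζ2 * Real.exp (L + (4 + 2 * (L / 16) + -(L / 16) ^ 2 / 4)) := by
            rw [Real.exp_add L]; ring
        _ ≤ 2 * ζ2 * Real.exp (4 + 2 * L + -(L / 16) ^ 2 / 4) := by
            apply mul_le_mul_of_nonneg_left _ (by positivity)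
            apply Real.exp_le_exp.2
            linarith
  have hev := (hE.comp Real.tendsto_log_atTop).eventually_le_const (u := 1) (by norm_num)
  obtain ⟨T1, hT1⟩ := hev.exists_forall_of_atTop
  refine ⟨18 * C + 18, max T1 10, by positivity, le_max_right _ _, fun T hT x v hx hx3 => ?_⟩
  have hT10 : 10 ≤ T := (le_max_right _ _).trans hT
  have hT0 : 0 < T := by linarith
  have hTE := hT1 T ((le_max_left _ _).trans hT)
  simp only [Function.comp_apply] at hTE
  have hL0 : 0 < Real.log T := Real.log_pos (by linarith)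
  obtain ⟨L, hL⟩ : ∃ L, L = Real.log T := ⟨_, rfl⟩
  rw [← hL] at hTE hL0 ⊢
  have hU : 0 < L / 16 := by positivity
  obtain ⟨X, hX⟩ : ∃ X : ℕ, X = ⌊T ^ (1 / 8 : ℝ)⌋₊ := ⟨_, rfl⟩
  have hXlog : 1 / 8 * L ≤ Real.log (X + 1) := by
    rw [hL, ← Real.log_rpow hT0, hX]
    exact Real.log_le_log (by positivity) (Nat.lt_floor_add_one _).le
  have hX2 : (X : ℝ) ^ 2 ≤ T := by
    have h1 : (X : ℝ) ≤ T ^ (1 / 8 : ℝ) := by
      rw [hX]
      exact Nat.floor_le (by positivity)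
    calc (X : ℝ) ^ 2 ≤ (T ^ (1 / 8 : ℝ)) ^ 2 := pow_le_pow_left₀ (Nat.cast_nonneg _) h1 2
      _ = T ^ (1 / 4 : ℝ) := by
          rw [← Real.rpow_natCast, ← Real.rpow_mul hT0.le]
          norm_num
      _ ≤ T ^ (1 : ℝ) := Real.rpow_le_rpow_of_exponent_le (by linarith) (by norm_num)
      _ = T := Real.rpow_one T
  obtain ⟨Sm, hSm⟩ : ∃ Sm : ℝ → ℂ, Sm = fun t : ℝ =>
    ∑ n ∈ Finset.Icc 2 X, kap (L / 16) x v n * (n : ℂ) ^ (-(t : ℂ) * I) := ⟨_, rfl⟩
  have hcont : Continuous Sm := by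
    rw [hSm]
    refine continuous_finsetSum _ fun n hn => ?_
    have hn2 : 2 ≤ n := (Finset.mem_Icc.mp hn).1
    have : (fun t : ℝ => kap (L / 16) x v n * (n : ℂ) ^ (-(t : ℂ) * I)) =
        fun t : ℝ => kap (L / 16) x v n * cexp (-((Real.log n : ℂ) * I) * (t : ℂ)) := by
      funext t
      rw [Pool.Agent.TH850.UV.DPM952.cpow_eq n hn2]
    rw [this]
    fun_prop
  have hpt : ∀ t : ℝ, ‖Dp (L / 16) (x + I * (t + v)) t‖ ^ 2 ≤ 2 * ‖Sm t‖ ^ 2 + 2 := by
    intro t
    have h1 := trunc (t := t) (v := v) (X := X) (D := L / 16) hU hx hU.le (by linarith)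
    rw [← hζ2] at h1
    have h2 : ‖Dp (L / 16) (x + I * (t + v)) t‖ ≤ ‖Sm t‖ + 1 := by
      have h3 := norm_le_norm_add_norm_sub' (Dp (L / 16) (x + I * (t + v)) t) (Sm t)
      rw [hSm] at h3 ⊢
      simp only at h3 ⊢
      linarith
    have h4 := norm_nonneg (Dp (L / 16) (x + I * (t + v)) t)
    nlinarith [sq_nonneg (‖Sm t‖ - 1), norm_nonneg (Sm t)]
  have hmv := mv X (kap (L / 16) x v) T (2 * T) (by linarith)
  have hms : ∫ t in T..(2 * T), ‖Sm t‖ ^ 2 ≤ 9 * T * (C / x ^ 2) := by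
    rw [hSm]
    refine hmv.trans ?_
    have h1 := hK X (L / 16) x v hU hx hx3
    have h2 : 0 ≤ ∑ n ∈ Finset.Icc 2 X, ‖kap (L / 16) x v n‖ ^ 2 :=
      Finset.sum_nonneg fun n _ => sq_nonneg _
    have h3 : (2 * T - T) + 8 * (X : ℝ) ^ 2 ≤ 9 * T := by linarith
    calc ((2 * T - T) + 8 * (X : ℝ) ^ 2) * ∑ n ∈ Finset.Icc 2 X, ‖kap (L / 16) x v n‖ ^ 2 ≤
        (9 * T) * ∑ n ∈ Finset.Icc 2 X, ‖kap (L / 16) x v n‖ ^ 2 :=
          mul_le_mul_of_nonneg_right h3 h2
      _ ≤ _ := mul_le_mul_of_nonneg_left h1 (by positivity)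
  calc ∫⁻ t in Icc T (2 * T), ENNReal.ofReal (‖Dp (L / 16) (x + I * (t + v)) t‖ ^ 2) ≤
      ∫⁻ t in Icc T (2 * T), ENNReal.ofReal (2 * ‖Sm t‖ ^ 2 + 2) :=
        lintegral_mono fun t => ENNReal.ofReal_le_ofReal (hpt t)
    _ = ENNReal.ofReal (∫ t in Icc T (2 * T), (2 * ‖Sm t‖ ^ 2 + 2)) := by
        rw [ofReal_integral_eq_lintegral_ofReal]
        · exact (Continuous.continuousOn (by fun_prop)).integrableOn_compact isCompact_Icc
        · exact Eventually.of_forall fun t => by positivity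
    _ ≤ ENNReal.ofReal ((18 * C + 18) * T / x ^ 2) := by
        apply ENNReal.ofReal_le_ofReal
        rw [integral_Icc_eq_integral_Ioc, ← intervalIntegral.integral_of_le (by linarith),
          intervalIntegral.integral_add (Continuous.intervalIntegrable (by fun_prop) _ _)
          (Continuous.intervalIntegrable (by fun_prop) _ _),
          intervalIntegral.integral_const_mul, intervalIntegral.integral_const, smul_eq_mul]
        have h1 : 1 ≤ 9 / x ^ 2 := by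
          rw [le_div_iff₀ (by positivity)]
          nlinarith
        have h2 : (18 * C + 18) * T / x ^ 2 = 2 * (9 * T * (C / x ^ 2)) + 2 * T * (9 / x ^ 2) := by
          ring
        rw [h2]
        have h3 : 2 * T * 1 ≤ 2 * T * (9 / x ^ 2) := by gcongr
        linarith

end Pool.Agent.H870.HP
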